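import Mathlib
import Pool.Agent.V1199.COmega

open Set Filter Topology

namespace Pool.Agent.Results.MP_68e822_an.NotResidual

open Pool.Agent.V1199.Assouad Pool.Agent.V1199.COmega

/-- There is a concave modulus `ω` with `ω(t)/t → ∞` such that the set of functions in the big
space whose graph has Assouad dimension `2` is not residual; moreover the set of those with
`dim_A G_f < 2` contains a ball. -/
theorem result : ∃ ω : Modulus, ConcaveOn ℝ (Icc (0 : ℝ) 1) ω.toFun ∧
    Tendsto (fun t => ω.toFun t / t) (𝓝[>] 0) atTop ∧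
    (∃ (f₀ : COm ω) (ε : ℝ), 0 < ε ∧ ∀ f : COm ω, ‖f - f₀‖ < ε → dimA (graph f) < 2) ∧
    {f : COm ω | dimA (graph f) = 2} ∉ residual (COm ω) ∧
    ¬ IsMeagre {f : COm ω | dimA (graph f) < 2} := by
  refine ⟨sqrtMod, sqrt_concave, sqrt_div, ⟨f₀, 1 / 24, by norm_num, fun f hf => ball_dimA hf⟩,
    ?_, ?_⟩
  · refine not_residual fun f hf h => ?_
    have h1 := ball_dimA hf
    have h2 : dimA (graph f) = 2 := h
    linarith
  · intro h
    refine not_residual (P := {f : COm sqrtMod | dimA (graph f) < 2}ᶜ) (fun f hf h' => ?_) h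
    exact h' (ball_dimA hf)

end Pool.Agent.Results.MP_68e822_an.NotResidual
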